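import Pool.Agent.helper53.ORE.Spec

/-!
# Row ore:SLQ (MP_561ff4_al): commutators of a semilinear map and Siegel elements
-/

set_option autoImplicit false

namespace Pool.Agent.ORE

open Module Pool.Agent.GS

open scoped BigOperators

noncomputable section

theorem SLQ_smul {F V : Type} [Field F] [AddCommGroup V] [Module F V] {Q : QuadraticForm F V}
    (h2 : (2 : F) = 0) {u d : V} (hu : Q u = 0) (hd : pb Q u d = 0) (c : F) :
    sq Q (c • u) d = sq Q u (c • d) := by
  have hu' : Q (c • u) = 0 := by rw [Q_smul, hu, mul_zero]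
  have hd1 : pb Q (c • u) d = 0 := by rw [map_smul, LinearMap.smul_apply, hd, smul_zero]
  have hd2 : pb Q u (c • d) = 0 := by rw [map_smul, hd, smul_zero]
  ext x
  rw [sq_apply h2 hu' hd1, sq_apply h2 hu hd2]
  simp only [Q_smul, map_smul, smul_eq_mul]
  module

theorem SLQ_key {F V : Type} [Field F] [Finite F] [AddCommGroup V] [Module F V]
    [FiniteDimensional F V] (sg : SGQ_stmt) (Q : QuadraticForm F V) (h2 : (2 : F) = 0)
    (hNd : Nd Q) (h8 : 8 ≤ finrank F V) (y : Equiv.Perm V) (ψ : F ≃+* F) (ν : F)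
    (hy : QSim Q y ψ ν) (lam μ X : F) (hlam : lam ≠ 0) (hμ : μ ≠ 0)
    (hrel : ν * ψ μ = lam⁻¹ * lam⁻¹ * μ) (u a : V)
    (hu : lam • y u = u) (ha : lam • y a = a) (hQu : Q u = 0) (hua : pb Q u a = 0) :
    Gq Q y 2 (sq Q u (((ψ X + X) / μ) • a)) := by
  have hν := hy.ne
  have hψμ : ψ μ ≠ 0 := (map_ne_zero ψ).2 hμ
  have hyu : y u = lam⁻¹ • u := by
    conv_rhs => rw [← hu]
    rw [smul_smul, inv_mul_cancel₀ hlam, one_smul]
  have hya : y a = lam⁻¹ • a := by
    conv_rhs => rw [← ha]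
    rw [smul_smul, inv_mul_cancel₀ hlam, one_smul]
  have hd : pb Q u ((X / μ) • a) = 0 := by rw [map_smul, hua, smul_zero]
  have ht : sq Q u ((X / μ) • a) ∈ OmQ Q := sg Q h2 hNd h8 u _ hQu hd
  have h1 := Gq.comm (Q := Q) (y := y) ht
  rw [sq_conj h2 hy hQu hd, sq_inv, hyu] at h1
  have hd' : pb Q u (ν⁻¹ • y ((X / μ) • a)) = 0 := by
    rw [hy.smul, hya, map_smul, map_smul, map_smul, hua, smul_zero, smul_zero, smul_zero]
  rw [SLQ_smul h2 hQu hd', sq_add h2 hQu (by rw [map_smul, hd', smul_zero]) hd] at h1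
  have e : lam⁻¹ • ν⁻¹ • y ((X / μ) • a) + (X / μ) • a = ((ψ X + X) / μ) • a := by
    rw [hy.smul, hya, smul_smul, smul_smul, smul_smul, ← add_smul]
    congr 1
    rw [map_div₀]
    rw [show lam⁻¹ * ν⁻¹ * (ψ X / ψ μ) * lam⁻¹ = (lam⁻¹ * lam⁻¹) * ψ X / (ν * ψ μ) by
      field_simp, hrel]
    field_simp
  rwa [e] at h1

theorem SLQ (sg : SGQ_stmt) (bl : BLW_stmt) (pe : PEW_stmt) : SLQ_stmt := by
  intro F V _ _ _ _ _ Q h2 hNd h8 y ψ ν hy hψ hD
  obtain ⟨X, hX⟩ := hψ
  obtain ⟨lam, μ, e, f, hlam, hμ, hfix, hQ, hB⟩ := hD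
  have hω : ψ X + X ≠ 0 := fun h => hX (eq_of_add2 h2 h)
  have hc : (ψ X + X) / μ ≠ 0 := div_ne_zero hω hμ
  have hrel : ν * ψ μ = lam⁻¹ * lam⁻¹ * μ := by
    have h1 := hy.pb (e 0) (f 0)
    rw [(hB 0 0).2.2, if_pos rfl] at h1
    rw [← h1]
    have he : y (e 0) = lam⁻¹ • e 0 := by
      conv_rhs => rw [← (hfix 0).1]
      rw [smul_smul, inv_mul_cancel₀ hlam, one_smul]
    have hf : y (f 0) = lam⁻¹ • f 0 := by
      conv_rhs => rw [← (hfix 0).2]
      rw [smul_smul, inv_mul_cancel₀ hlam, one_smul]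
    rw [he, hf, map_smul, map_smul, LinearMap.smul_apply, (hB 0 0).2.2, if_pos rfl, smul_eq_mul,
      smul_eq_mul]
    ring
  have b01 : pb Q (e 0) (e 1) = 0 := (hB 0 1).1
  have b0f1 : pb Q (e 0) (f 1) = 0 := by rw [(hB 0 1).2.2, if_neg (by decide)]
  have b0f0 : pb Q (e 0) (f 0) = μ := by rw [(hB 0 0).2.2, if_pos rfl]
  have b1f0 : pb Q (e 1) (f 0) = 0 := by rw [(hB 1 0).2.2, if_neg (by decide)]
  have b1f1 : pb Q (e 1) (f 1) = μ := by rw [(hB 1 1).2.2, if_pos rfl]
  have bf10 : pb Q (f 1) (f 0) = 0 := (hB 1 0).2.1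
  set c : F := (ψ X + X) / μ with hcdef
  have key := SLQ_key sg Q h2 hNd h8 y ψ ν hy lam μ X hlam hμ hrel
  constructor
  · have h1 := key (e 0) (e 1) (hfix 0).1 (hfix 1).1 (hQ 0).1 b01
    rw [← hcdef] at h1
    refine bl Q h2 hNd h8 y 2 (e 0) (c • e 1) ?_ (hQ 0).1 ?_ ?_ h1
    · rw [LinearIndependent.pair_iff]
      intro s t hst
      have h3 : pb Q (s • e 0 + t • c • e 1) (f 0) = 0 := by
        rw [hst, map_zero, LinearMap.zero_apply]
      have h4 : pb Q (s • e 0 + t • c • e 1) (f 1) = 0 := by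
        rw [hst, map_zero, LinearMap.zero_apply]
      simp only [map_add, LinearMap.add_apply, map_smul, LinearMap.smul_apply, smul_eq_mul, b0f0,
        b1f0, b0f1, b1f1, mul_zero, add_zero, zero_add] at h3 h4
      constructor
      · rcases mul_eq_zero.1 h3 with h | h
        · exact h
        · exact absurd h hμ
      · rcases mul_eq_zero.1 h4 with h | h
        · exact h
        · exact absurd h (mul_ne_zero hc hμ)
    · rw [Q_smul, (hQ 1).1, mul_zero]
    · rw [map_smul, b01, smul_zero]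
  · have hQa : Q (e 1 + f 1) = μ := by rw [Q_add, (hQ 1).1, (hQ 1).2, b1f1, zero_add, zero_add]
    have hua : pb Q (e 0) (e 1 + f 1) = 0 := by rw [map_add, b01, b0f1, add_zero]
    have hfa : lam • y (e 1 + f 1) = e 1 + f 1 := by
      rw [hy.add, smul_add, (hfix 1).1, (hfix 1).2]
    have h1 := key (e 0) (e 1 + f 1) (hfix 0).1 hfa (hQ 0).1 hua
    rw [← hcdef] at h1
    set d : V := c • (e 1 + f 1) with hd
    have hud : pb Q (e 0) d = 0 := by rw [hd, map_smul, hua, smul_zero]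
    have hdu : pb Q d (e 0) = 0 := by rw [pb_symm, hud]
    have hQd : Q d ≠ 0 := by
      rw [hd, Q_smul, hQa]
      exact mul_ne_zero (pow_ne_zero 2 hc) hμ
    have hQd0 : ∀ q : F, Q (d + q • e 0) = Q d := by
      intro q
      have h9 : pb Q d (q • e 0) = 0 := by rw [LinearMap.map_smul, hdu, smul_zero]
      rw [Q_add Q d, Q_smul Q q, (hQ 0).1, h9, mul_zero, add_zero, add_zero]
    have hQd' : Q (d + Q d • e 0) = Q d := hQd0 (Q d)
    rw [sq_eq_rq h2 (hQ 0).1 hud hQd] at h1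
    refine (pe Q h2 hNd h8 y 2).2 d (d + Q d • e 0) ?_ hQd (by rw [hQd']; exact hQd) ?_ h1
    · rw [LinearIndependent.pair_iff]
      intro s t hst
      have h3 : pb Q (s • d + t • (d + Q d • e 0)) (f 0) = 0 := by
        rw [hst, map_zero, LinearMap.zero_apply]
      have hdf0 : pb Q d (f 0) = 0 := by
        rw [hd, map_smul, map_add, LinearMap.smul_apply, LinearMap.add_apply, b1f0, bf10, add_zero,
          smul_zero]
      have h4 : pb Q (s • d + t • (d + Q d • e 0)) (f 1) = 0 := by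
        rw [hst, map_zero, LinearMap.zero_apply]
      have hdf1 : pb Q d (f 1) = c * μ := by
        rw [hd, map_smul, map_add, LinearMap.smul_apply, LinearMap.add_apply, b1f1,
          pb_self2 h2, add_zero, smul_eq_mul]
      simp only [map_add, LinearMap.add_apply, map_smul, LinearMap.smul_apply, smul_eq_mul, b0f0,
        b0f1, hdf0, hdf1, mul_zero, add_zero, zero_add] at h3 h4
      have ht : t = 0 := by
        rcases mul_eq_zero.1 h3 with h | h
        · exact h
        · exact absurd h (mul_ne_zero hQd hμ)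
      refine ⟨?_, ht⟩
      rw [ht, zero_mul, add_zero] at h4
      rcases mul_eq_zero.1 h4 with h | h
      · exact h
      · exact absurd h (mul_ne_zero hc hμ)
    · rw [map_add, pb_self2 h2, map_smul, hdu, smul_zero, add_zero]

end

end Pool.Agent.ORE
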