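import Pool.Agent.helper53.ORE.Spec
import Pool.Agent.helper16.ORT.DSO1

/-!
# Row ore:DQ1 (MP_561ff4_al): one more hyperbolic pair of fixed vectors (characteristic two)
-/

set_option autoImplicit false

namespace Pool.Agent.ORE

open Module Pool.Agent.GS

open scoped BigOperators

noncomputable section

theorem DQ1 (ds2 : GS.DS2_stmt) : DQ1_stmt := by
  intro F V _ _ _ _ _ Q h2 hNd y ψ ν hy l hl hψ hψl hyl μ hμ hμν k e f hk hfix hQ0 hB0
  have hspan : Submodule.span F {u | y u = u} = ⊤ := ds2 ψ l hl hψ hψl y hy.add hy.smul hyl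
  have hψμ : ψ μ ≠ 0 := (map_ne_zero ψ).2 hμ
  have hν : ν ≠ 0 := hy.ne
  have hS : Sym (pb Q) := ⟨pb_symm Q, hNd⟩
  have hvalg : ∀ c : F, c = ν * ψ c → ψ (μ⁻¹ * c) = μ⁻¹ * c := by
    intro c hc
    have h3 : ψ (μ⁻¹ * c) = (ψ μ)⁻¹ * ψ c := by
      rw [map_mul, map_inv₀]
    have h4 : μ⁻¹ * c = (ν * ψ μ)⁻¹ * (ν * ψ c) := by
      rw [← hc, ← hμν]
    rw [h3, h4]
    field_simp
  have hval : ∀ u v, y u = u → y v = v → ψ (μ⁻¹ * pb Q u v) = μ⁻¹ * pb Q u v := by
    intro u v hu hv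
    apply hvalg
    have h1 := hy.pb u v
    rwa [hu, hv] at h1
  have hvalQ : ∀ v, y v = v → ψ (μ⁻¹ * Q v) = μ⁻¹ * Q v := by
    intro v hv
    apply hvalg
    have h1 := hy.form v
    rwa [hv] at h1
  have hquot : ∀ c d : F, ψ (μ⁻¹ * c) = μ⁻¹ * c → ψ (μ⁻¹ * d) = μ⁻¹ * d → ψ (c / d) = c / d := by
    intro c d hc hd
    have e1 : c / d = (μ⁻¹ * c) / (μ⁻¹ * d) := by
      rw [mul_div_mul_left _ _ (inv_ne_zero hμ)]
    rw [e1, map_div₀, hc, hd]
  have hysub : ∀ u v, y (u - v) = y u - y v := by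
    intro u v
    have h1 := hy.add (u - v) v
    rw [sub_add_cancel] at h1
    rw [h1, add_sub_cancel_right]
  obtain ⟨P, S, hP, hdS, hmS⟩ :=
    ORT.DSO1_base (pb Q) hS y ψ hy.add hy.smul μ hμ k e f hfix hB0 hval
  have hPB : ∀ x, (∀ s ∈ S, pb Q x s = 0) → ∀ w, pb Q x (P w) = pb Q x w := by
    intro x hx w
    have h1 := hx _ (hP.sub w)
    rw [map_sub] at h1
    exact (sub_eq_zero.1 h1).symm
  -- a fixed vector not orthogonal to a given nonzero vector
  have hnz : ∀ x, x ≠ 0 → ∃ w, y w = w ∧ pb Q x w ≠ 0 := by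
    intro x hx
    by_contra hcon
    push Not at hcon
    apply hx
    apply hNd
    intro v
    have h1 : pb Q x = 0 := by
      apply LinearMap.ext_on hspan
      intro w hw
      exact hcon w hw
    rw [h1]
    rfl
  -- fixed vectors outside small subspaces
  have hout : ∀ T : Submodule F V, finrank F T ≤ 2 → ∃ w, y w = w ∧ P w ∉ T := by
    intro T hT
    by_contra hcon
    push Not at hcon
    have h1 : ∀ w : V, P w ∈ T := by
      intro w
      have hw : w ∈ Submodule.span F {u | y u = u} := by rw [hspan]; exact Submodule.mem_top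
      refine Submodule.span_induction (p := fun x _ => P x ∈ T) ?_ ?_ ?_ ?_ hw
      · intro x hx
        exact hcon x hx
      · rw [map_zero]; exact T.zero_mem
      · intro a b _ _ ha hb
        rw [map_add]; exact T.add_mem ha hb
      · intro c a _ ha
        rw [map_smul]; exact T.smul_mem c ha
    have htop : (⊤ : Submodule F V) ≤ S ⊔ T := by
      intro w _
      have h3 := Submodule.add_mem_sup (hP.sub w) (h1 w)
      rwa [sub_add_cancel] at h3
    have h3 := Submodule.finrank_mono htop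
    rw [finrank_top] at h3
    have h4 := Submodule.finrank_add_le_finrank_add_finrank S T
    omega
  -- step 1
  obtain ⟨w₁, hw₁, hg₁T⟩ := hout ⊥ (by rw [finrank_bot]; omega)
  have f1 : y (P w₁) = P w₁ := hP.fix w₁ hw₁
  have o1 : ∀ s ∈ S, pb Q (P w₁) s = 0 := hP.orth w₁
  have n1 : P w₁ ≠ 0 := fun h => hg₁T (by rw [h]; exact Submodule.zero_mem _)
  -- step 2
  obtain ⟨w₀, hw₀, hg₀⟩ := hnz _ n1
  rw [← hPB _ o1] at hg₀
  have f0 : y (P w₀) = P w₀ := hP.fix w₀ hw₀
  have o0 : ∀ s ∈ S, pb Q (P w₀) s = 0 := hP.orth w₀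
  -- step 3
  obtain ⟨w₂, hw₂, hhT⟩ := hout (Submodule.span F {P w₁, P w₀}) (by
    classical
    have h1 := finrank_span_finset_le_card (R := F) ({P w₁, P w₀} : Finset V)
    rw [Finset.coe_pair] at h1
    exact h1.trans Finset.card_le_two)
  have f2 : y (P w₂) = P w₂ := hP.fix w₂ hw₂
  have o2 : ∀ s ∈ S, pb Q (P w₂) s = 0 := hP.orth w₂
  generalize P w₁ = g₁ at *
  generalize P w₀ = h₀ at *
  generalize P w₂ = h at *
  set c : F := pb Q g₁ h / pb Q g₁ h₀ with hc
  have hcψ : ψ c = c := hquot _ _ (hval _ _ f1 f2) (hval _ _ f1 f0)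
  set g₂ : V := h - c • h₀ with hg₂
  have fg₂ : y g₂ = g₂ := by rw [hg₂, hysub, hy.smul, hcψ, f2, f0]
  have og₂ : ∀ s ∈ S, pb Q g₂ s = 0 := by
    intro s hs
    rw [hg₂, map_sub, LinearMap.sub_apply, map_smul, LinearMap.smul_apply, o2 s hs, o0 s hs,
      smul_zero, sub_zero]
  have h12 : pb Q g₁ g₂ = 0 := by
    rw [hg₂, map_sub, map_smul, smul_eq_mul, hc, div_mul_cancel₀ _ hg₀, sub_self]
  have hni : ∀ d : F, g₂ ≠ d • g₁ := by
    intro d hd
    apply hhT
    have h3 : h = d • g₁ + c • h₀ := by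
      rw [← hd, hg₂, sub_add_cancel]
    rw [h3]
    exact Submodule.mem_span_pair.2 ⟨d, c, rfl⟩
  -- step 4
  obtain ⟨E, fE, oE, nE, qE⟩ : ∃ E, y E = E ∧ (∀ s ∈ S, pb Q E s = 0) ∧ E ≠ 0 ∧ Q E = 0 := by
    by_cases hq : Q g₁ = 0
    · exact ⟨g₁, f1, o1, n1, hq⟩
    · have := charP2 h2
      have hsq : IsSquare (Q g₂ / Q g₁) := by
        have hr : ringChar F = 2 := ringChar.eq F 2
        exact FiniteField.isSquare_of_char_two hr _
      obtain ⟨α, hα⟩ := hsq
      have hαψ : ψ α = α := by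
        have h3 : ψ (Q g₂ / Q g₁) = Q g₂ / Q g₁ := hquot _ _ (hvalQ _ fg₂) (hvalQ _ f1)
        rw [hα, map_mul] at h3
        have h4 : (ψ α + α) * (ψ α + α) = 0 := by
          linear_combination h3 + (α * α + ψ α * α) * h2
        have h5 : ψ α + α = 0 := by
          rcases mul_eq_zero.1 h4 with h5 | h5 <;> exact h5
        exact eq_of_add2 h2 h5
      refine ⟨α • g₁ + g₂, ?_, ?_, ?_, ?_⟩
      · rw [hy.add, hy.smul, hαψ, f1, fg₂]
      · intro s hs
        rw [map_add, LinearMap.add_apply, map_smul, LinearMap.smul_apply, o1 s hs, og₂ s hs,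
          smul_zero, add_zero]
      · intro h3
        apply hni (-α)
        rw [neg_smul]
        exact (neg_eq_of_add_eq_zero_right h3).symm
      · rw [Q_add, Q_smul, map_smul, LinearMap.smul_apply, h12, smul_zero, add_zero]
        have h3 : α ^ 2 * Q g₁ = Q g₂ := by
          rw [pow_two, ← hα, div_mul_cancel₀ _ hq]
        rw [h3]
        exact add2 h2 _
  -- step 5
  obtain ⟨w₃, hw₃, hb⟩ := hnz _ nE
  rw [← hPB _ oE] at hb
  have f3 : y (P w₃) = P w₃ := hP.fix w₃ hw₃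
  have o3 : ∀ s ∈ S, pb Q (P w₃) s = 0 := hP.orth w₃
  generalize P w₃ = u at *
  have hbψ : ψ (μ / pb Q E u) = μ / pb Q E u := by
    refine hquot _ _ ?_ (hval _ _ fE f3)
    rw [inv_mul_cancel₀ hμ, map_one]
  have hqψ : ψ (Q u / pb Q E u) = Q u / pb Q E u := hquot _ _ (hvalQ _ f3) (hval _ _ fE f3)
  have hEE : pb Q E E = 0 := pb_self2 h2 Q E
  refine ⟨E, (μ / pb Q E u) • (u + (Q u / pb Q E u) • E), fE, ?_, qE, ?_, ?_, ?_⟩
  · rw [hy.smul, hy.add, hy.smul, hbψ, hqψ, f3, fE]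
  · rw [Q_smul, Q_add, Q_smul, qE, map_smul, smul_eq_mul, pb_symm Q u E, div_mul_cancel₀ _ hb]
    linear_combination ((μ / pb Q E u) ^ 2 * Q u) * h2
  · rw [map_smul, map_add, map_smul, hEE, smul_zero, add_zero, smul_eq_mul, div_mul_cancel₀ _ hb]
  · intro i
    have h5 := hmS i
    refine ⟨oE _ h5.1, oE _ h5.2, ?_, ?_⟩
    · rw [map_smul, LinearMap.smul_apply, map_add, LinearMap.add_apply, map_smul,
        LinearMap.smul_apply, o3 _ h5.1, oE _ h5.1, smul_zero, add_zero, smul_zero]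
    · rw [map_smul, LinearMap.smul_apply, map_add, LinearMap.add_apply, map_smul,
        LinearMap.smul_apply, o3 _ h5.2, oE _ h5.2, smul_zero, add_zero, smul_zero]

end

end Pool.Agent.ORE
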